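import Pool.Agent.H99.ADJ.Base2

/-! # Project ADJ, module GMK: the general Markov property -/

set_option autoImplicit false

open MeasureTheory ProbabilityTheory Set Filter Topology
open scoped NNReal ENNReal NNRat

namespace Pool.ADJ

theorem gmk_thm (h_AFF : S_AFF) (h_IND : S_IND) (h_LAW : S_LAW) : S_GMK := by
  intro Ω _ μ B hB ι _ t a c ha hc ht S hS G hG
  have := hB.gp.isProbabilityMeasure
  set t' : Option ι → ℝ := fun o => o.elim a t with ht'def
  have ht' : ∀ o, 0 ≤ t' o ∧ t' o ≤ a := by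
    rintro (_ | i)
    · exact ⟨ha, le_rfl⟩
    · exact ht i
  have hI := h_IND Ω μ B hB (Option ι) ℚ≥0 t' (fun q => c * (q : ℝ)) a ha ht'
    (fun q => mul_nonneg hc.le (NNRat.cast_nonneg _))
  have hA := h_AFF Ω μ B hB a c ha hc
  set Y : Ω → (ℚ≥0 → Pl) :=
    fun ω => path (fun u ω => (√c)⁻¹ • (B (a + c * u) ω - B a ω)) ω with hY
  set X : Ω → (Option ι → Pl) := fun ω o => B (t' o) ω with hX
  have hYm : Measurable Y := measurable_pi_lambda _ fun q => hA.meas _ (NNRat.cast_nonneg _)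
  have hXm : Measurable X := measurable_pi_lambda _ fun o => hB.meas _ (ht' o).1
  have hPm : Measurable (path B) := measurable_pi_lambda _ fun q => hB.meas _ (NNRat.cast_nonneg _)
  have hI2 : IndepFun X Y μ := by
    have h := hI.comp (measurable_id)
      (measurable_pi_lambda (fun (w : ℚ≥0 → Pl) (q : ℚ≥0) => (√c)⁻¹ • w q)
        fun q => (measurable_const_smul (√c)⁻¹).comp (measurable_pi_apply q))
    exact h
  have hmap : μ.map Y = μ.map (path B) := h_LAW _ _ _ _ _ _ hA hB
  have hprod := (indepFun_iff_map_prod_eq_prod_map_map hXm.aemeasurable hYm.aemeasurable).1 hI2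
  have hS' : MeasurableSet {x : Option ι → Pl | (fun i => x (some i)) ∈ S} :=
    (measurable_pi_lambda (fun (x : Option ι → Pl) (i : ι) => x (some i))
      fun i => measurable_pi_apply _) hS
  have hG' : MeasurableSet {p : (Option ι → Pl) × (ℚ≥0 → Pl) | (p.1 none, p.2) ∈ G} :=
    (((measurable_pi_apply none).comp measurable_fst).prodMk measurable_snd) hG
  have hT : MeasurableSet ({p : (Option ι → Pl) × (ℚ≥0 → Pl) | (fun i => p.1 (some i)) ∈ S} ∩
      {p | (p.1 none, p.2) ∈ G}) := (measurable_fst hS').inter hG'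
  have e1 : ({ω | (fun i => B (t i) ω) ∈ S} ∩ {ω | (B a ω, Y ω) ∈ G}) =
      (fun ω => (X ω, Y ω)) ⁻¹' ({p : (Option ι → Pl) × (ℚ≥0 → Pl) |
        (fun i => p.1 (some i)) ∈ S} ∩ {p | (p.1 none, p.2) ∈ G}) := rfl
  show μ ({ω | (fun i => B (t i) ω) ∈ S} ∩ {ω | (B a ω, Y ω) ∈ G}) = _
  rw [e1, ← Measure.map_apply (hXm.prodMk hYm) hT, hprod, Measure.prod_apply hT,
    lintegral_map (measurable_measure_prodMk_left hT) hXm]
  have hS2 : MeasurableSet {ω | (fun i => B (t i) ω) ∈ S} := hXm hS'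
  rw [← lintegral_indicator hS2]
  refine lintegral_congr fun ω => ?_
  by_cases hω : (fun i => B (t i) ω) ∈ S
  · rw [Set.indicator_of_mem (by exact hω)]
    have e2 : Prod.mk (X ω) ⁻¹' ({p : (Option ι → Pl) × (ℚ≥0 → Pl) |
        (fun i => p.1 (some i)) ∈ S} ∩ {p | (p.1 none, p.2) ∈ G}) =
        {y : ℚ≥0 → Pl | (B a ω, y) ∈ G} := by
      ext y
      constructor
      · exact fun h => h.2
      · exact fun h => ⟨hω, h⟩
    have hGy : MeasurableSet {y : ℚ≥0 → Pl | (B a ω, y) ∈ G} := measurable_prodMk_left hG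
    rw [e2, hmap, Measure.map_apply hPm hGy]
    rfl
  · rw [Set.indicator_of_notMem (by exact hω)]
    have e2 : Prod.mk (X ω) ⁻¹' ({p : (Option ι → Pl) × (ℚ≥0 → Pl) |
        (fun i => p.1 (some i)) ∈ S} ∩ {p | (p.1 none, p.2) ∈ G}) = ∅ := by
      ext y
      simp only [Set.mem_preimage, Set.mem_inter_iff, Set.mem_empty_iff_false, iff_false]
      exact fun h => hω h.1
    rw [e2, measure_empty]

end Pool.ADJ
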