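import Pool.Agent.H99.ADJ.Base2

/-! # Project ADJ, module MEB: measurability of the ball event -/

set_option autoImplicit false

open MeasureTheory ProbabilityTheory Set Filter Topology
open scoped NNReal ENNReal NNRat

namespace Pool.ADJ

/-- `Linked` does not depend on the points inside the components -/
private theorem linkedInf_congr {K : Set Pl} {x y : Pl} (hx : x ∉ K) (hy : y ∉ K)
    (hxy : connectedComponentIn Kᶜ x = connectedComponentIn Kᶜ y) (h : LinkedInf K x) :
    LinkedInf K y := by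
  obtain ⟨w, hw1, hw2, hw3⟩ := h
  rcases Relation.ReflTransGen.cases_head hw3 with h0 | ⟨u, h1, h2⟩
  · subst h0
    refine ⟨y, hy, ?_, Relation.ReflTransGen.refl⟩
    rwa [← hxy]
  · refine ⟨w, hw1, hw2, Relation.ReflTransGen.head ?_ h2⟩
    exact ⟨hy, h1.2.1, by rw [← hxy]; exact h1.2.2⟩

/-- a point of `K` which is linked to infinity does not exist -/
private theorem not_mem_of_linkedInf {K : Set Pl} {x : Pl} (h : LinkedInf K x) : x ∉ K := by
  obtain ⟨w, hw1, hw2, hw3⟩ := h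
  rcases Relation.ReflTransGen.cases_head hw3 with h0 | ⟨u, h1, h2⟩
  · rwa [h0]
  · exact h1.1

/-- rational points are dense -/
private theorem exists_rat_point {O : Set Pl} (hO : IsOpen O) (hne : O.Nonempty) :
    ∃ x : Fin 2 → ℚ, (fun i => (x i : ℝ)) ∈ O := by
  have hd : DenseRange (fun x : Fin 2 → ℚ => (fun i => (x i : ℝ) : Pl)) := by
    have := DenseRange.piMap (f := fun (_ : Fin 2) (q : ℚ) => (q : ℝ))
      (fun _ => Rat.denseRange_cast)
    exact this
  obtain ⟨y, hy, x, hx⟩ := hd.inter_open_nonempty O hO hne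
  exact ⟨x, by rw [← hx] at hy; exact hy⟩

private theorem ballInf_iff {K : Set Pl} (hK : IsClosed K) (r : ℝ) :
    BallInf K r ↔ ∃ x : Fin 2 → ℚ, ‖(fun i => (x i : ℝ) : Pl)‖ < r ∧
      LinkedInf K (fun i => (x i : ℝ)) := by
  constructor
  · rintro ⟨z, hz, hL⟩
    have hzK := not_mem_of_linkedInf hL
    have ho : IsOpen (connectedComponentIn Kᶜ z ∩ Metric.ball (0 : Pl) r) :=
      (hK.isOpen_compl.connectedComponentIn).inter Metric.isOpen_ball
    obtain ⟨x, hx1, hx2⟩ := exists_rat_point ho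
      ⟨z, mem_connectedComponentIn hzK, by simpa using hz⟩
    refine ⟨x, by simpa using hx2, ?_⟩
    exact linkedInf_congr hzK (connectedComponentIn_subset _ _ hx1)
      (connectedComponentIn_eq hx1) hL
  · rintro ⟨x, hx, hL⟩
    exact ⟨_, hx, hL⟩

theorem meb_thm (h_MEA : S_MEA) : S_MEB := by
  intro r
  choose S hS1 hS2 using evt h_MEA
  refine ⟨⋃ x : {x : Fin 2 → ℚ // ‖(fun i => (x i : ℝ) : Pl)‖ < r}, S (fun i => (x.1 i : ℝ)),
    MeasurableSet.iUnion fun x => hS1 _, ?_⟩
  intro Ω B ω hc a b hab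
  have hK : IsClosed (tr B ω a b) := (isCompact_Icc.image hc).isClosed
  rw [ballInf_iff hK r, Set.mem_iUnion]
  constructor
  · rintro ⟨x, hx, hL⟩
    exact ⟨⟨x, hx⟩, (hS2 _ B ω hc a b hab).1 hL⟩
  · rintro ⟨⟨x, hx⟩, hL⟩
    exact ⟨x, hx, (hS2 _ B ω hc a b hab).2 hL⟩

end Pool.ADJ
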